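import Pool.Agent.Helper92.AH.Defs

/-!
MP_c38931_co, modules RANK and IDEM.
-/

set_option autoImplicit false

namespace Pool.Agent.Helper92.AH

theorem rank_idem {A : Type} [Monoid A] (a : A) (h : IsIdempotentElem a) :
    ∀ n, 0 < n → a ^ n = a := by
  intro n hn
  induction n with
  | zero => exact absurd hn (lt_irrefl 0)
  | succ n ih =>
    rcases Nat.eq_zero_or_pos n with h0 | h0
    · rw [h0, zero_add, pow_one]
    · rw [pow_succ, ih h0]
      exact h

theorem rank_shift {k ι κ : Type} [Field k] [Fintype ι] [DecidableEq ι] [Fintype κ]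
    [DecidableEq κ] (U : Matrix ι κ k) (V : Matrix κ ι k) (n : ℕ) :
    (U * V) ^ (n + 1) = U * (V * U) ^ n * V := by
  induction n with
  | zero => simp
  | succ n ih =>
    rw [pow_succ, ih, pow_succ]
    simp only [Matrix.mul_assoc]

theorem rank_le {k ι κ : Type} [Field k] [Fintype ι] [DecidableEq ι] [Fintype κ] [DecidableEq κ]
    (U : Matrix ι κ k) (V : Matrix κ ι k) (a b : ℕ) (ha : 0 < a) (hb : 0 < b)
    (h1 : IsIdempotentElem ((U * V) ^ a)) (h2 : IsIdempotentElem ((V * U) ^ b)) :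
    ((U * V) ^ a).rank ≤ ((V * U) ^ b).rank := by
  have hab : 0 < a * b := Nat.mul_pos ha hb
  obtain ⟨m, hm⟩ : ∃ m, 2 * (a * b) = m + 1 := ⟨2 * (a * b) - 1, by omega⟩
  have e1 : (U * V) ^ (m + 1) = (U * V) ^ a := by
    rw [← hm]
    have : 2 * (a * b) = a * (2 * b) := by ring
    rw [this, pow_mul]
    exact rank_idem _ h1 _ (by omega)
  have e2 : (V * U) ^ (a * b) = (V * U) ^ b := by
    rw [mul_comm a b, pow_mul]
    exact rank_idem _ h2 _ ha
  have e3 : (V * U) ^ m = (V * U) ^ b * (V * U) ^ (m - a * b) := by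
    rw [← e2, ← pow_add]
    congr 1
    omega
  rw [← e1, rank_shift]
  calc (U * (V * U) ^ m * V).rank ≤ (U * (V * U) ^ m).rank := Matrix.rank_mul_le_left _ _
    _ ≤ ((V * U) ^ m).rank := Matrix.rank_mul_le_right _ _
    _ = ((V * U) ^ b * (V * U) ^ (m - a * b)).rank := by rw [e3]
    _ ≤ ((V * U) ^ b).rank := Matrix.rank_mul_le_left _ _

theorem st_RANK : ST_RANK := by
  intro k ι κ _ _ _ _ _ U V a b ha hb h1 h2
  exact le_antisymm (rank_le U V a b ha hb h1 h2) (rank_le V U b a hb ha h2 h1)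

theorem st_IDEM : ST_IDEM := by
  intro A _ _ a
  have h1 : ¬ Function.Injective (fun n : ℕ => a ^ n) := not_injective_infinite_finite _
  rw [Function.Injective] at h1
  push Not at h1
  obtain ⟨i, j, hij, hne⟩ := h1
  -- without loss of generality `i < j`
  have h2 : ∃ i e : ℕ, 0 < e ∧ a ^ (i + e) = a ^ i := by
    rcases lt_or_gt_of_ne hne with h | h
    · exact ⟨i, j - i, by omega, by rw [hij]; congr 1; omega⟩
    · exact ⟨j, i - j, by omega, by rw [← hij]; congr 1; omega⟩
  obtain ⟨i, e, he, hie⟩ := h2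
  have h3 : ∀ n, i ≤ n → a ^ (n + e) = a ^ n := by
    intro n hn
    obtain ⟨m, rfl⟩ := Nat.exists_eq_add_of_le hn
    have h4 : i + m + e = (i + e) + m := by ring
    rw [h4, pow_add, hie, ← pow_add]
  have h5 : ∀ c n, i ≤ n → a ^ (n + e * c) = a ^ n := by
    intro c
    induction c with
    | zero => intro n _; rw [mul_zero, add_zero]
    | succ c ih =>
      intro n hn
      have h6 : n + e * (c + 1) = (n + e * c) + e := by ring
      rw [h6, h3 _ (by omega), ih n hn]
  refine ⟨e * (i + 1), Nat.mul_pos he (Nat.succ_pos i), ?_⟩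
  intro m hm hdvd
  obtain ⟨c, hc⟩ := hdvd
  have hc0 : 0 < c := by
    rcases Nat.eq_zero_or_pos c with h | h
    · rw [h, mul_zero] at hc
      omega
    · exact h
  have him : i ≤ m := by
    rw [hc]
    calc i ≤ i + 1 := Nat.le_succ i
      _ = 1 * (i + 1) * 1 := by ring
      _ ≤ e * (i + 1) * c := Nat.mul_le_mul (Nat.mul_le_mul_right _ he) hc0
  change a ^ m * a ^ m = a ^ m
  rw [← pow_add]
  have h7 : m + m = m + e * ((i + 1) * c) := by
    have h8 : e * ((i + 1) * c) = m := by rw [hc]; ring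
    rw [h8]
  rw [h7, h5 _ m him]

end Pool.Agent.Helper92.AH
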